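import Pool.Agent.Helper27.CB.St2

set_option autoImplicit false

open MeasureTheory Set

namespace Pool.Agent.Helper71.CB

open Pool.Agent.Helper27.CB

/-- Supporting line of a concave function. -/
private theorem supp27 {c b : ℝ} {D : ℝ → ℝ} (hD : ConcaveOn ℝ (Icc 0 c) D) (hb : b ∈ Ioo 0 c) :
    ∃ m : ℝ, ∀ s ∈ Icc 0 c, D s ≤ D b + m * (s - b) := by
  obtain ⟨h0b, hbc⟩ := hb
  have key : ∀ x ∈ Ico 0 b, ∀ y ∈ Ioc b c, (D y - D b) / (y - b) ≤ (D b - D x) / (b - x) := by
    intro x hx y hy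
    exact hD.slope_anti_adjacent (x := x) (y := b) (z := y) ⟨hx.1, by linarith [hx.2]⟩
      ⟨by linarith [hy.1], hy.2⟩ hx.2 hy.1
  let S : Set ℝ := (fun x => (D b - D x) / (b - x)) '' Ico 0 b
  have hSne : S.Nonempty := ⟨_, ⟨0, ⟨le_refl _, h0b⟩, rfl⟩⟩
  have hSb : BddBelow S := by
    refine ⟨(D c - D b) / (c - b), ?_⟩
    rintro _ ⟨x, hx, rfl⟩
    exact key x hx c ⟨hbc, le_refl _⟩
  refine ⟨sInf S, fun s hs => ?_⟩
  rcases lt_trichotomy s b with h | h | h
  · have h1 : sInf S ≤ (D b - D s) / (b - s) := csInf_le hSb ⟨s, ⟨hs.1, h⟩, rfl⟩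
    rw [le_div_iff₀ (by linarith)] at h1
    linarith
  · subst h; simp
  · have h1 : (D s - D b) / (s - b) ≤ sInf S := by
      refine le_csInf hSne ?_
      rintro _ ⟨x, hx, rfl⟩
      exact key x hx s ⟨h, hs.2⟩
    rw [div_le_iff₀ (by linarith)] at h1
    linarith

private theorem int0_27 (e s1 s2 : ℝ) : ∫ s in s1..s2, (s ^ 2 - e) =
    (s2 ^ 3 - s1 ^ 3) / 3 - e * (s2 - s1) := by
  rw [intervalIntegral.integral_sub ((Continuous.intervalIntegrable (by fun_prop) _ _)) (by simp), integral_pow]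
  simp
  ring

private theorem int1_27 (e s1 s2 : ℝ) : ∫ s in s1..s2, (s ^ 2 - e) * s =
    (s2 ^ 4 - s1 ^ 4) / 4 - e * (s2 ^ 2 - s1 ^ 2) / 2 := by
  have h : ∀ s : ℝ, (s ^ 2 - e) * s = s ^ 3 - e * s ^ 1 := fun s => by ring
  simp_rw [h]
  rw [intervalIntegral.integral_sub ((Continuous.intervalIntegrable (by fun_prop) _ _))
    ((Continuous.intervalIntegrable (by fun_prop) _ _)),
    intervalIntegral.integral_const_mul, integral_pow, integral_pow]
  norm_num
  ring

private theorem int_aff (e s1 s2 p q : ℝ) : ∫ s in s1..s2, (s ^ 2 - e) * (p + q * s) =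
    p * ((s2 ^ 3 - s1 ^ 3) / 3 - e * (s2 - s1)) +
      q * ((s2 ^ 4 - s1 ^ 4) / 4 - e * (s2 ^ 2 - s1 ^ 2) / 2) := by
  rw [← int0_27, ← int1_27, ← intervalIntegral.integral_const_mul, ← intervalIntegral.integral_const_mul,
    ← intervalIntegral.integral_add ((Continuous.intervalIntegrable (by fun_prop) _ _))
      ((Continuous.intervalIntegrable (by fun_prop) _ _))]
  congr 1
  ext s
  ring

private theorem wm_pos {a x y : ℝ} (ha : 0 < a) (hax : a ≤ x) (hxy : x < y) : 0 < wm a x y := by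
  have h : wm a x y = (y - x) * ((x ^ 2 + x * y + y ^ 2) / 3 - a ^ 2 / 2) := by unfold wm; ring
  rw [h]
  apply mul_pos (by linarith)
  have h1 : a ^ 2 ≤ x ^ 2 := pow_le_pow_left₀ ha.le hax 2
  have h2 : x ^ 2 ≤ x * y := by nlinarith
  have h3 : x * y ≤ y ^ 2 := by nlinarith
  have h4 : 0 < a ^ 2 := by positivity
  linarith

private theorem wc_mul {a x y : ℝ} (ha : 0 < a) (hax : a ≤ x) (hxy : x < y) :
    wc a x y * wm a x y = (y ^ 4 - x ^ 4) / 4 - a ^ 2 * (y ^ 2 - x ^ 2) / 4 := by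
  unfold wc
  rw [div_mul_cancel₀ _ (wm_pos ha hax hxy).ne']

private theorem wc_mem {a x y : ℝ} (ha : 0 < a) (hax : a ≤ x) (hxy : x < y) (hy : y ≤ 1) :
    0 < wc a x y ∧ wc a x y < 1 := by
  have hm := wm_pos ha hax hxy
  have h1 : a ^ 2 ≤ x ^ 2 := pow_le_pow_left₀ ha.le hax 2
  have hx : 0 < x := by linarith
  have hy0 : 0 < y := by linarith
  constructor
  · unfold wc
    apply div_pos _ hm
    have e : (y ^ 4 - x ^ 4) / 4 - a ^ 2 * (y ^ 2 - x ^ 2) / 4
        = (y - x) * (y + x) * (y ^ 2 + (x ^ 2 - a ^ 2)) / 4 := by ring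
    rw [e]
    have h2 : 0 < y ^ 2 + (x ^ 2 - a ^ 2) := by nlinarith
    have h3 : 0 < y - x := by linarith
    positivity
  · unfold wc
    rw [div_lt_one hm]
    have h2 : y * wm a x y ≤ wm a x y := by nlinarith
    have h3 : (y ^ 4 - x ^ 4) / 4 - a ^ 2 * (y ^ 2 - x ^ 2) / 4 < y * wm a x y := by
      have e : y * wm a x y - ((y ^ 4 - x ^ 4) / 4 - a ^ 2 * (y ^ 2 - x ^ 2) / 4)
          = (y - x) ^ 2 * (3 * (x ^ 2 - a ^ 2) + 2 * x * y + y ^ 2) / 12 := by
        unfold wm; ring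
      have h4 : 0 < (y - x) ^ 2 * (3 * (x ^ 2 - a ^ 2) + 2 * x * y + y ^ 2) / 12 := by
        have h5 : 0 < y - x := by linarith
        have h6 : 0 < 3 * (x ^ 2 - a ^ 2) + 2 * x * y + y ^ 2 := by
          have : 0 < x * y := by positivity
          have : 0 < y ^ 2 := by positivity
          linarith
        positivity
      linarith
    linarith

private theorem two {w : ℝ → ℝ} {c a x y : ℝ} (hc : 0 < c) (ha : 0 < a) (hax : a ≤ x)
    (hxy : x < y) (hy : y ≤ 1) (hD : ConcaveOn ℝ (Icc 0 c) w)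
    (hkw : IntervalIntegrable (fun s => (s ^ 2 - (a * c) ^ 2 / 2) * w s) volume (x * c) (y * c)) :
    ∫ s in (x * c)..(y * c), (s ^ 2 - (a * c) ^ 2 / 2) * w s ≤
      wm a x y * c ^ 3 * w (wc a x y * c) := by
  obtain ⟨h0, h1⟩ := wc_mem ha hax hxy hy
  have hmem : wc a x y * c ∈ Ioo 0 c := ⟨by positivity, by nlinarith⟩
  obtain ⟨p, hp⟩ := supp27 hD hmem
  have hx0 : 0 ≤ x * c := mul_nonneg (by linarith) hc.le
  have hyc : y * c ≤ c := by nlinarith
  have hle : x * c ≤ y * c := by nlinarith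
  have hkpos : ∀ s ∈ Icc (x * c) (y * c), 0 ≤ s ^ 2 - (a * c) ^ 2 / 2 := by
    intro s hs
    have h2 : a * c ≤ s := le_trans (mul_le_mul_of_nonneg_right hax hc.le) hs.1
    have h3 : (a * c) ^ 2 ≤ s ^ 2 := pow_le_pow_left₀ (by positivity) h2 2
    nlinarith [sq_nonneg (a * c)]
  have h3 : ∫ s in (x * c)..(y * c), (s ^ 2 - (a * c) ^ 2 / 2) * w s ≤
      ∫ s in (x * c)..(y * c), (s ^ 2 - (a * c) ^ 2 / 2) *
        ((w (wc a x y * c) - p * (wc a x y * c)) + p * s) := by
    refine intervalIntegral.integral_mono_on hle hkw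
      ((Continuous.intervalIntegrable (by fun_prop) _ _)) ?_
    intro s hs
    refine mul_le_mul_of_nonneg_left ?_ (hkpos s hs)
    have := hp s ⟨hx0.trans hs.1, hs.2.trans hyc⟩
    linarith
  refine h3.trans (le_of_eq ?_)
  rw [int_aff]
  have e1 : ((y * c) ^ 3 - (x * c) ^ 3) / 3 - (a * c) ^ 2 / 2 * (y * c - x * c)
      = wm a x y * c ^ 3 := by
    unfold wm; ring
  have e2 : ((y * c) ^ 4 - (x * c) ^ 4) / 4 - (a * c) ^ 2 / 2 * ((y * c) ^ 2 - (x * c) ^ 2) / 2
      = wc a x y * wm a x y * c ^ 4 := by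
    rw [wc_mul ha hax hxy]; ring
  rw [e1, e2]
  ring

theorem hONT : StONT := by
  intro w c b b' hc hb hbb' hb1' hD hA
  have hb1 : b < 1 := hbb'.trans hb1'
  have hBpos : 0 < b * c := by positivity
  have hBc : b * c < c := by nlinarith
  have hB'c : b' * c < c := by nlinarith
  have hBB' : b * c < b' * c := by nlinarith
  set B := b * c with hB
  let k : ℝ → ℝ := fun s => s ^ 2 - B ^ 2 / 2
  have hk : Continuous k := by fun_prop
  have hwi : ∀ s1 s2 : ℝ, 0 ≤ s1 → s1 ≤ s2 → s2 ≤ c → IntervalIntegrable w volume s1 s2 := by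
    intro s1 s2 h1 h2 h3
    apply AntitoneOn.intervalIntegrable
    rw [uIcc_of_le h2]
    exact hA.mono (Icc_subset_Icc h1 h3)
  have hkw : ∀ s1 s2 : ℝ, 0 ≤ s1 → s1 ≤ s2 → s2 ≤ c → IntervalIntegrable (fun s => k s * w s) volume s1 s2 :=
    fun s1 s2 h1 h2 h3 => (hwi s1 s2 h1 h2 h3).continuousOn_mul hk.continuousOn
  have hsq : (0 : ℝ) < √2 := by positivity
  have hsq2 : √2 ^ 2 = 2 := Real.sq_sqrt (by norm_num)
  have hsq1 : 1 < √2 := by
    rw [show (1 : ℝ) = √1 by simp]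
    exact Real.sqrt_lt_sqrt (by norm_num) (by norm_num)
  -- (I)
  have hI : ∫ s in (0 : ℝ)..B, k s * w s ≤ - (B ^ 3 / 6) * w 0 := by
    set t0 := B / √2 with ht0
    have ht0pos : 0 < t0 := by positivity
    have ht0B : t0 < B := by
      rw [ht0, div_lt_iff₀ hsq]
      nlinarith
    have ht0sq : t0 ^ 2 = B ^ 2 / 2 := by
      rw [ht0, div_pow, hsq2]
    set q0 := (w t0 - w 0) / t0 with hq0
    have hq0' : w t0 = w 0 + q0 * t0 := by
      rw [hq0, div_mul_cancel₀ _ ht0pos.ne']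
      ring
    have hm0 : (0 : ℝ) ∈ Icc 0 c := ⟨le_rfl, hc.le⟩
    have hpt : ∀ t ∈ Icc 0 B, k t * w t ≤ k t * (w 0 + q0 * t) := by
      intro t ht
      rcases lt_trichotomy t t0 with h | h | h
      · have h1 : w 0 + q0 * t ≤ w t := by
          have h2 := hD.2 hm0 (show t0 ∈ Icc 0 c from ⟨ht0pos.le, by linarith⟩)
            (show 0 ≤ 1 - t / t0 by
              rw [sub_nonneg, div_le_one ht0pos]
              exact h.le) (show 0 ≤ t / t0 from div_nonneg ht.1 ht0pos.le) (by ring)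
          simp only [smul_eq_mul, mul_zero, zero_add] at h2
          rw [div_mul_cancel₀ _ ht0pos.ne'] at h2
          have h3 : (1 - t / t0) * w 0 + t / t0 * w t0 = w 0 + q0 * t := by
            rw [hq0']
            field_simp
            ring
          rw [h3] at h2
          exact h2
        have h2 : k t ≤ 0 := by
          have : t ^ 2 ≤ t0 ^ 2 := pow_le_pow_left₀ ht.1 h.le 2
          simp only [k]
          linarith
        exact mul_le_mul_of_nonpos_left h1 h2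
      · have : k t = 0 := by
          simp only [k]
          rw [h, ht0sq]
          ring
        rw [this]
        simp
      · have htpos : 0 < t := ht0pos.trans h
        have h1 : w t ≤ w 0 + q0 * t := by
          have h2 := hD.slope_anti_adjacent (x := 0) (y := t0) (z := t) hm0
            ⟨htpos.le, by linarith [ht.2]⟩ ht0pos h
          rw [sub_zero, ← hq0, div_le_iff₀ (by linarith)] at h2
          rw [hq0'] at h2
          linarith
        have h2 : 0 ≤ k t := by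
          have : t0 ^ 2 ≤ t ^ 2 := pow_le_pow_left₀ ht0pos.le h.le 2
          simp only [k]
          linarith
        exact mul_le_mul_of_nonneg_left h1 h2
    have h3 : ∫ s in (0 : ℝ)..B, k s * w s ≤ ∫ s in (0 : ℝ)..B, k s * (w 0 + q0 * s) :=
      intervalIntegral.integral_mono_on hBpos.le (hkw _ _ le_rfl hBpos.le hBc.le)
        ((Continuous.intervalIntegrable (by fun_prop) _ _)) hpt
    refine h3.trans (le_of_eq ?_)
    have h4 := int_aff (B ^ 2 / 2) 0 B (w 0) q0
    simp only [k]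
    rw [h4]
    ring
  -- (II)
  have hII : ∫ s in B..(b' * c), k s * w s ≤ wm b b b' * c ^ 3 * w (wc b b b' * c) :=
    two hc hb le_rfl hbb' hb1'.le hD (hkw _ _ hBpos.le hBB'.le hB'c.le)
  have hIII : ∫ s in (b' * c)..c, k s * w s ≤ wm b b' 1 * c ^ 3 * w (wc b b' 1 * c) := by
    have h := two hc hb hbb'.le hb1' le_rfl hD
      (by rw [one_mul]; exact hkw _ _ (by linarith) hB'c.le le_rfl)
    rw [one_mul] at h
    exact h
  have hsum : ∫ s in (0 : ℝ)..c, k s * w s = (∫ s in (0 : ℝ)..c, s ^ 2 * w s) -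
      B ^ 2 / 2 * ∫ s in (0 : ℝ)..c, w s := by
    rw [← intervalIntegral.integral_const_mul, ← intervalIntegral.integral_sub
      ((hwi 0 c le_rfl hc.le le_rfl).continuousOn_mul (by fun_prop : Continuous fun s : ℝ => s ^ 2).continuousOn)
      ((hwi 0 c le_rfl hc.le le_rfl).const_mul _)]
    congr 1
    ext s
    simp only [k]
    ring
  have hadd := intervalIntegral.integral_add_adjacent_intervals (hkw 0 B le_rfl hBpos.le hBc.le)
    (hkw B c hBpos.le hBc.le le_rfl)
  have hadd2 := intervalIntegral.integral_add_adjacent_intervals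
    (hkw B (b' * c) hBpos.le hBB'.le hB'c.le) (hkw (b' * c) c (by linarith) hB'c.le le_rfl)
  rw [← hadd, ← hadd2] at hsum
  have e3 : B ^ 3 = b ^ 3 * c ^ 3 := by rw [hB]; ring
  have e4 : B ^ 2 = b ^ 2 * c ^ 2 := by rw [hB]; ring
  rw [e3] at hI
  rw [e4] at hsum
  have e5 : b ^ 2 / 2 * c ^ 2 * (∫ s in (0 : ℝ)..c, w s) = b ^ 2 * c ^ 2 / 2 * ∫ s in (0 : ℝ)..c, w s := by
    ring
  rw [e5]
  have e6 : b ^ 3 / 6 * c ^ 3 * w 0 = b ^ 3 * c ^ 3 / 6 * w 0 := by ring
  rw [e6]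
  linarith

end Pool.Agent.Helper71.CB
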